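import Pool.Agent.Helper15.AF.Final

/-!
# A pseudorandom generator for sets of coin strings certified by few coins or by parities

The definitions are in `Pool.Agent.Helper15.AF.Defs` (`Affine`, `Certified`, `Generates`, `Decided`)
and in `Pool.Agent.Helper78.CG.Defs` (`Witnessed`, `prob`, `coins`, `frac`); polynomial time (over
Mathlib's Turing machines) is in `Pool.Agent.Helper81.CxDefs`, the coding `encOf` of structured data
in `Pool.Agent.Helper81.CxData`, the class `InP` in `Pool.Agent.Helper51.ZP.Defs`. The example
mentioned in the claim is `Pool.Agent.Helper15.AF.certified_of_forced`.
-/

namespace Pool.Agent.Results.MP_34c247_lc.CoinsOrParities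

open Pool.Agent.Helper15.AF Pool.Agent.Helper51.ZP

/-- For all `c`, `e`, there is a deterministic polynomial-time pseudorandom generator with the
one-sided error `1 / (log₂ N + 2) ^ c` for all sets of coin strings which are certified by at most
`(log₂ N + 2) ^ (e / (e + 1))` sets, each of which is an affine subspace over the field with two
elements or has witnesses of size `c (log₂ N + 1)`; and the languages decided, with gap
`1 / (log₂ n + 2) ^ c`, by randomized polynomial-time algorithms the answers of which are certified
in this sense, are exactly the languages in P. -/
theorem result (c e : ℕ) : Generates c e ∧ ∀ L : Set (List Bool), InP L ↔ Decided c e L :=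
  main c e

end Pool.Agent.Results.MP_34c247_lc.CoinsOrParities
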