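import Pool.Agent.Helper78.JT.Final

/-!
# Deterministic polynomial-time approximate counting for circuits over decision lists of CNFs

The definitions are in `Pool.Agent.Helper78.JT.Defs`; polynomial time (over Mathlib's Turing
machines) is in `Pool.Agent.Helper81.CxDefs`, the coding `encOf` of structured data in
`Pool.Agent.Helper81.CxData`, the class `InP` in `Pool.Agent.Helper51.ZP.Defs`.
-/

namespace Pool.Agent.Results.MP_34c247_lc.DepthThreeCircuits

open Pool.Agent.Helper78.JT Pool.Agent.Helper51.ZP

/-- For all `c`, `k`, `e`, a deterministic polynomial-time function computes the fraction of the
assignments with the output `true`, up to the additive error `1 / (log₂ N + 2) ^ c`, for all circuits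
of size `N` with at most `(log₂ N + 2) ^ (e / (e + 1))` decision lists, the tests of which are CNFs
with at most `k (log₂ N + 1)` clauses of width more than `k`; and the languages decided by such
circuits with gap `1 / (log₂ n + 2) ^ c` are exactly the languages in P. -/
theorem result (c k e : ℕ) :
    Counts c k e ∧ ∀ L : Set (List Bool), InP L ↔ Decided c k e L := main c k e

end Pool.Agent.Results.MP_34c247_lc.DepthThreeCircuits
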