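import Pool.Agent.Helper78.PM.Final

/-!
# `P = ZPP` for parallel searches which store few coins and forget everything else

The definitions are in `Pool.Agent.Helper78.PM.Defs`; `InP` is in `Pool.Agent.Helper51.ZP.Defs`,
polynomial time (over Mathlib's Turing machines) is in `Pool.Agent.Helper81.CxDefs`, the coding
`encOf` of structured data in `Pool.Agent.Helper81.CxData`.
-/

namespace Pool.Agent.Results.MP_34c247_lc.ParallelMemory

open Pool.Agent.Helper51.ZP Pool.Agent.Helper78.PM

/-- For all `c`, `e`, `k`, consider randomized algorithms with polynomially many coins, tossed in
advance, and at most `(log₂ n + 2) ^ (e / (e + 1))` threads. A thread has polynomially many stages.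
Each stage reads at most `c log n + c` coins of its choice, adaptively, knowing the memory of its
thread; then it ends the thread with the result `true` or `false`, or forgets all that it has read, or
stores it in the memory, which has room for `c log n + c` bits. The answer is any polynomial-time
function of the results of the threads. The probability of the answer `true` can be computed by a
deterministic polynomial-time machine up to the additive error `1 / (log₂ n + 2) ^ k`, and the
languages decided by such algorithms with gap `1 / (log₂ n + 2) ^ k` are exactly the languages in
`P`. -/
theorem result (c e k : ℕ) : Approximable c e k ∧
    ∀ L : Set (List Bool), InP L ↔ DecidedWithGap c e k L :=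
  main c e k

end Pool.Agent.Results.MP_34c247_lc.ParallelMemory
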