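import Pool.Agent.Helper52.SM.Final
import Pool.Agent.Helper62.SM.LOC

/-!
# The search form of `P = RP` for circuits of depth three and for parallel algorithms with memory

The definitions are in `Pool.Agent.Helper52.SX.Defs` (`FindsCircuits`), `Pool.Agent.Helper78.JT.Defs`
(circuits over decision lists of CNFs), `Pool.Agent.Helper52.SM.Defs` (`FindsAnswers`) and
`Pool.Agent.Helper78.PM.Defs` (parallel algorithms with small memories); polynomial time (over
Mathlib's Turing machines) is in `Pool.Agent.Helper81.CxDefs`, the coding `encOf` of structured data
in `Pool.Agent.Helper81.CxData`. The search for satisfying assignments of CNFs and of decision lists of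
terms is a special case (`Pool.Agent.Helper62.SM.lists_of_circuits`, `Pool.Agent.Helper46.CS.cnf`).
-/

namespace Pool.Agent.Results.MP_34c247_lc.SearchDepthThree

open Pool.Agent.Helper52.SX Pool.Agent.Helper52.SM

/-- For all `b`, `c`, `k`, `e` there are deterministic polynomial-time functions which find (1) an
assignment with output `true` of every circuit of size `N` with at most `(log₂ N + 2) ^ (e / (e + 1))`
decision lists, the tests of which are CNFs with at most `k (log₂ N + 1)` clauses of width more than
`k`, and with an arbitrary output gate, for which at least the fraction `1 / (log₂ N + 2) ^ c` of all
assignments has the output `true`, (2) coins with the answer `true`, for every randomized algorithm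
with `(log₂ n + 2) ^ (e / (e + 1))` threads over common coins, whose stages read at most
`b log₂ n + b` coins and then end the thread, forget or store them (at most `b log₂ n + b` bits in the
memory of each thread), and for all inputs `x` of length `n` for which the answer is `true` with
probability at least `1 / (log₂ n + 2) ^ c`. -/
theorem result (b c k e : ℕ) : FindsCircuits c k e ∧ FindsAnswers b e c :=
  ⟨findsCircuits c k e, findsAnswers b e c⟩

end Pool.Agent.Results.MP_34c247_lc.SearchDepthThree
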